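import Pool.Agent.H69.LQ.Lib

set_option autoImplicit false

open MeasureTheory Metric Set
open scoped ENNReal
open Pool.Agent.H85.LK (E adm lam Ann)
open Pool.Agent.H69.LQ

namespace Pool.Agent.H40.LQ

theorem pf_RI (hPH : T_PH) : T_RI := by
  intro N L a R t u u' hN ha haR hu huR
  obtain ⟨hd, hs, hq⟩ := hPH N L hN
  obtain ⟨p, hp⟩ : ∃ p : ℝ → ℝ, p = ph N L 1 := ⟨_, rfl⟩
  obtain ⟨p', hp'⟩ : ∃ p' : ℝ → ℝ, p' = dph N L 1 := ⟨_, rfl⟩
  have hdp : ∀ r, HasDerivAt p (p' r) r := by
    intro r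
    rw [hp, hp']
    exact hd 1 r
  have hcp : Continuous p := by
    rw [hp]
    exact (hs 1).1.continuous
  have hcp' : Continuous p' := by
    rw [hp']
    exact (hs 1).2.continuous
  have hqd : ∀ r, 0 < r → HasDerivAt (fun r => r ^ (N - 1) * p' r)
      (r ^ (N - 1) * ((((N : ℝ) - 1) / r ^ 2 - L) * p r)) r := by
    intro r hr
    have h1 := hq 1 r hr
    have h2 : ((1 : ℕ) : ℝ) * (((1 : ℕ) : ℝ) + N - 2) = (N : ℝ) - 1 := by
      push_cast
      ring
    rw [h2] at h1
    rw [hp, hp']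
    exact h1
  unfold ff
  rw [← hp, ← hp']
  obtain ⟨hud, hcu'⟩ := hu
  have hcu : Continuous u := continuous_iff_continuousAt.2 fun x => (hud x).continuousAt
  have hpos : ∀ r ∈ uIcc a R, 0 < r := by
    intro r hr
    rw [uIcc_of_le haR] at hr
    exact lt_of_lt_of_le ha hr.1
  have hV : ContinuousOn (fun r : ℝ => ((N : ℝ) - 1) / r ^ 2 - L) (uIcc a R) := by
    refine ContinuousOn.sub (ContinuousOn.div continuousOn_const
      (continuous_pow 2).continuousOn ?_) continuousOn_const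
    intro r hr
    exact pow_ne_zero 2 (hpos r hr).ne'
  have hi1 : IntervalIntegrable (fun r => r ^ (N - 1) * (u' r ^ 2 +
      (((N : ℝ) - 1) / r ^ 2 - L) * u r ^ 2)) volume a R := by
    refine ContinuousOn.intervalIntegrable ?_
    exact (continuous_pow _).continuousOn.mul ((hcu'.pow 2).continuousOn.add
      (hV.mul (hcu.pow 2).continuousOn))
  have hi2 : IntervalIntegrable (fun r => r ^ (N - 1) * ((u' r - t * p' r) ^ 2 +
      (((N : ℝ) - 1) / r ^ 2 - L) * (u r - t * p r) ^ 2)) volume a R := by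
    refine ContinuousOn.intervalIntegrable ?_
    exact (continuous_pow _).continuousOn.mul
      (((hcu'.sub (continuous_const.mul hcp')).pow 2).continuousOn.add
      (hV.mul ((hcu.sub (continuous_const.mul hcp)).pow 2).continuousOn))
  have hG : ∀ r ∈ uIcc a R, HasDerivAt (fun r => (r ^ (N - 1) * p' r) *
      (t ^ 2 * p r + 2 * t * (u r - t * p r)))
      (r ^ (N - 1) * (u' r ^ 2 + (((N : ℝ) - 1) / r ^ 2 - L) * u r ^ 2) -
        r ^ (N - 1) * ((u' r - t * p' r) ^ 2 +
          (((N : ℝ) - 1) / r ^ 2 - L) * (u r - t * p r) ^ 2)) r := by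
    intro r hr
    have h1 := (hqd r (hpos r hr)).mul (((hdp r).const_mul (t ^ 2)).add
      (((hud r).sub ((hdp r).const_mul t)).const_mul (2 * t)))
    refine h1.congr_deriv ?_
    simp only [Pi.add_apply, Pi.sub_apply]
    ring
  have hF := intervalIntegral.integral_eq_sub_of_hasDerivAt hG (hi1.sub hi2)
  rw [intervalIntegral.integral_sub hi1 hi2] at hF
  simp only [huR] at hF
  have e1 : R ^ (N - 1) * p' R * (t ^ 2 * p R + 2 * t * (0 - t * p R)) =
      t ^ 2 * -(R ^ (N - 1) * p' R * p R) := by ring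
  rw [e1] at hF
  linarith

end Pool.Agent.H40.LQ
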